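import Pool.Agent.H29.UDP.TPro
import Pool.Agent.H67.LD.GAF

/-!
# MP_47c37b: correlation inequalities for linear forms (GGR), by doubling the system
-/

set_option autoImplicit false

open MeasureTheory SchwartzMap Filter Topology
open scoped ENNReal ContDiff InnerProductSpace

namespace Pool.Agent.H97.UDP

open Pool.Agent.H29.UDP
open Pool.Agent.H43.DPC (V S SD moment trans rot IsMAO Diag)
open Pool.Agent.H80.LD (Sys Re pair T_LAW T_GKS T_ST4 T_CVG cv)
open Pool.Agent.H67.LD (mono_bd)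

noncomputable section

/-- expansion of a product of linear forms -/
theorem ggr_expand {κ ι : Type} [Fintype κ] [Fintype ι] [DecidableEq ι] [DecidableEq κ]
    (c : κ → ι → ℝ) (φ : ι → ℝ) :
    ∏ i, ∑ x, c i x * φ x = ∑ s : κ → ι, (∏ i, c i (s i)) *
      ∏ x, φ x ^ (Finset.univ.filter fun i => s i = x).card := by
  rw [Finset.prod_univ_sum, Fintype.piFinset_univ]
  refine Finset.sum_congr rfl fun s _ => ?_
  rw [Finset.prod_mul_distrib]
  congr 1
  rw [← Finset.prod_fiberwise' (s := (Finset.univ : Finset κ)) (g := s) (f := φ)]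
  refine Finset.prod_congr rfl fun x _ => ?_
  rw [Finset.prod_const]

theorem ggr_card {κ ι : Type} [Fintype κ] [Fintype ι] [DecidableEq ι] [DecidableEq κ]
    (s : κ → ι) : ∑ x, (Finset.univ.filter fun i => s i = x).card = Fintype.card κ := by
  rw [← Finset.card_eq_sum_card_fiberwise (s := (Finset.univ : Finset κ)) (t := Finset.univ)
    (f := s) (fun i _ => Finset.mem_coe.2 (Finset.mem_univ _))]
  simp

/-- moments of the law of a system -/
theorem ggr_mom (hLAW : T_LAW) {d : ℕ} {e : V d} (A : Sys d e) {κ : Type} [Fintype κ]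
    [DecidableEq κ] (c : κ → Fin A.N → ℝ) :
    ∫ φ, ∏ i, ∑ x, c i x * φ x ∂A.law = ∑ s : κ → Fin A.N, (∏ i, c i (s i)) *
      ∫ φ, ∏ x, φ x ^ (Finset.univ.filter fun i => s i = x).card ∂A.law := by
  have hI := (hLAW d e A).2.2.2.2
  have hint : ∀ m : Fin A.N → ℕ, Integrable (fun φ : Fin A.N → ℝ => ∏ x, φ x ^ m x) A.law := by
    intro m
    refine hI _ (1 + ∑ x, (m x : ℝ)) (by fun_prop) fun φ => mono_bd m φ
  rw [integral_congr_ae (Filter.Eventually.of_forall fun φ => ggr_expand c φ), integral_finsetSum]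
  · refine Finset.sum_congr rfl fun s _ => ?_
    rw [integral_const_mul]
  · intro s _
    exact (hint _).const_mul _

theorem ggr_pos (hLAW : T_LAW) (hGKS : T_GKS) {d : ℕ} {e : V d} (A : Sys d e) {κ : Type}
    [Fintype κ] [DecidableEq κ] (c : κ → Fin A.N → ℝ) (hc : ∀ i x, 0 ≤ c i x) :
    0 ≤ ∫ φ, ∏ i, ∑ x, c i x * φ x ∂A.law := by
  rw [ggr_mom hLAW]
  exact Finset.sum_nonneg fun s _ => mul_nonneg (Finset.prod_nonneg fun i _ => hc _ _)
    (hGKS d e A _).1

theorem ggr_odd (hLAW : T_LAW) (hGKS : T_GKS) {d : ℕ} {e : V d} (A : Sys d e) {κ : Type}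
    [Fintype κ] [DecidableEq κ] (c : κ → Fin A.N → ℝ) (hk : Odd (Fintype.card κ)) :
    ∫ φ, ∏ i, ∑ x, c i x * φ x ∂A.law = 0 := by
  rw [ggr_mom hLAW]
  refine Finset.sum_eq_zero fun s _ => ?_
  rw [(hGKS d e A _).2 (by rw [ggr_card]; exact hk), mul_zero]

theorem ggr_maj (hLAW : T_LAW) (hGKS : T_GKS) {d : ℕ} {e : V d} (A : Sys d e) {κ : Type}
    [Fintype κ] [DecidableEq κ] (c c' : κ → Fin A.N → ℝ) (hc : ∀ i x, |c i x| ≤ c' i x) :
    |∫ φ, ∏ i, ∑ x, c i x * φ x ∂A.law| ≤ ∫ φ, ∏ i, ∑ x, c' i x * φ x ∂A.law := by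
  rw [ggr_mom hLAW, ggr_mom hLAW]
  refine (Finset.abs_sum_le_sum_abs _ _).trans (Finset.sum_le_sum fun s _ => ?_)
  rw [abs_mul, abs_of_nonneg (hGKS d e A _).1, Finset.abs_prod]
  refine mul_le_mul_of_nonneg_right ?_ (hGKS d e A _).1
  exact Finset.prod_le_prod (fun i _ => abs_nonneg _) fun i _ => hc _ _

/-! ### The doubled system -/

variable {ι : Type} [Fintype ι]

/-- the sites of the doubled system -/
def dE (ι : Type) [Fintype ι] : Fin (Fintype.card ι + Fintype.card ι) ≃ ι ⊕ ι :=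
  finSumFinEquiv.symm.trans (Equiv.sumCongr (Fintype.equivFin ι).symm (Fintype.equivFin ι).symm)

/-- the unit vector of the line -/
def dv : V 1 := EuclideanSpace.single 0 1

theorem dv_inner : ⟪dv, dv⟫_ℝ = 1 := by
  simp [dv]

theorem dv_ne : dv ≠ 0 := fun h => by
  have := dv_inner
  rw [h, inner_zero_left] at this
  exact zero_ne_one this

theorem Re_dv : Re dv dv = -dv := Submodule.reflection_orthogonalComplement_singleton_eq_neg dv

/-- positions -/
def dpos : ι ⊕ ι → V 1 := Sum.elim (fun _ => dv) (fun _ => -dv)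

/-- couplings -/
def dJ (J : ι → ι → ℝ) : ι ⊕ ι → ι ⊕ ι → ℝ :=
  Sum.elim (fun a => Sum.elim (fun b => J a b) (fun _ => 0))
    (fun a => Sum.elim (fun _ => 0) (fun b => J a b))

/-- the doubled system -/
@[reducible] def dbl (J : ι → ι → ℝ) (g b : ι → ℝ) (hg : ∀ x, 0 < g x) (hJ : ∀ x y, 0 ≤ J x y)
    (hs : ∀ x y, J x y = J y x) : Sys 1 dv where
  N := Fintype.card ι + Fintype.card ι
  pos x := dpos (dE ι x)
  w _ := 1
  J x y := dJ J (dE ι x) (dE ι y)
  g x := Sum.elim g g (dE ι x)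
  b x := Sum.elim b b (dE ι x)
  σ x := (dE ι).symm (dE ι x).swap
  w_nonneg _ := zero_le_one
  J_nonneg x y := by
    generalize dE ι x = u
    generalize dE ι y = v
    cases u <;> cases v <;> simp [dJ, hJ]
  J_symm x y := by
    generalize dE ι x = u
    generalize dE ι y = v
    cases u <;> cases v <;> simp [dJ, hs]
  g_pos x := by
    generalize dE ι x = u
    cases u <;> simp [hg]
  σ_σ x := by simp
  pos_σ x := by
    simp only [Equiv.apply_symm_apply]
    generalize dE ι x = u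
    cases u <;> simp [dpos, Re_dv]
  off x := by
    generalize dE ι x = u
    cases u <;> simp [dpos, dv_ne]
  w_σ _ := rfl
  g_σ x := by
    simp only [Equiv.apply_symm_apply]
    generalize dE ι x = u
    cases u <;> simp
  b_σ x := by
    simp only [Equiv.apply_symm_apply]
    generalize dE ι x = u
    cases u <;> simp
  J_σ x y := by
    simp only [Equiv.apply_symm_apply]
    generalize dE ι x = u
    generalize dE ι y = v
    cases u <;> cases v <;> simp [dJ]
  rp c hc := by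
    refine Finset.sum_nonneg fun x _ => Finset.sum_nonneg fun y _ => ?_
    have hx := hc x
    have hy := hc y
    simp only [Equiv.apply_symm_apply]
    generalize dE ι x = u at hx ⊢
    generalize dE ι y = v at hy ⊢
    have h1 : ⟪dv, -dv⟫_ℝ < 0 := by rw [inner_neg_right, dv_inner]; norm_num
    rcases u with u | u <;> rcases v with v | v
    · simp [dJ]
    · rw [hy (by simpa [dpos] using h1)]; simp
    · rw [hx (by simpa [dpos] using h1)]; simp
    · simp [dJ]

/-- the map from pairs of configurations to configurations of the doubled system -/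
def dM (ι : Type) [Fintype ι] :
    (ι → ℝ) × (ι → ℝ) ≃ᵐ (Fin (Fintype.card ι + Fintype.card ι) → ℝ) :=
  (MeasurableEquiv.sumPiEquivProdPi (fun _ : ι ⊕ ι => ℝ)).symm.trans
    (MeasurableEquiv.arrowCongr' (dE ι).symm (MeasurableEquiv.refl ℝ))

theorem dM_mp : MeasurePreserving (dM ι) volume volume :=
  (volume_measurePreserving_sumPiEquivProdPi_symm (fun _ : ι ⊕ ι => ℝ)).trans
    (volume_preserving_arrowCongr' (dE ι).symm (MeasurableEquiv.refl ℝ)
      (MeasurePreserving.id _))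

theorem dM_apply (z : (ι → ℝ) × (ι → ℝ)) (x : Fin (Fintype.card ι + Fintype.card ι)) :
    dM ι z x = Sum.elim z.1 z.2 (dE ι x) := by
  change (MeasurableEquiv.sumPiEquivProdPi (fun _ : ι ⊕ ι => ℝ)).symm z ((dE ι).symm.symm x) = _
  rw [Equiv.symm_symm]
  generalize dE ι x = u
  cases u <;> rfl

variable {J : ι → ι → ℝ} {g b : ι → ℝ} (hg : ∀ x, 0 < g x) (hJ : ∀ x y, 0 ≤ J x y)
    (hs : ∀ x y, J x y = J y x)

theorem dsum (F : ι ⊕ ι → ℝ) : ∑ x : Fin (Fintype.card ι + Fintype.card ι), F (dE ι x) =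
    ∑ a, F (Sum.inl a) + ∑ a, F (Sum.inr a) := by
  rw [← Fintype.sum_sum_type]
  exact (dE ι).sum_comp F

theorem dH (z : (ι → ℝ) × (ι → ℝ)) :
    (dbl J g b hg hJ hs).H (dM ι z) = gH J g b z.1 + gH J g b z.2 := by
  have h1 : ∀ φ : Fin (Fintype.card ι + Fintype.card ι) → ℝ, (dbl J g b hg hJ hs).H φ =
      ∑ x, (Sum.elim g g (dE ι x) * φ x ^ 4 + Sum.elim b b (dE ι x) * φ x ^ 2) -
      1 / 2 * ∑ x, ∑ y, dJ J (dE ι x) (dE ι y) * φ x * φ y := fun φ => rfl
  have h4 : ∑ x : Fin (Fintype.card ι + Fintype.card ι),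
      (Sum.elim g g (dE ι x) * (dM ι z) x ^ 4 + Sum.elim b b (dE ι x) * (dM ι z) x ^ 2) =
      ∑ a, (g a * z.1 a ^ 4 + b a * z.1 a ^ 2) + ∑ a, (g a * z.2 a ^ 4 + b a * z.2 a ^ 2) := by
    simp only [dM_apply]
    exact dsum fun u => Sum.elim g g u * Sum.elim z.1 z.2 u ^ 4 +
      Sum.elim b b u * Sum.elim z.1 z.2 u ^ 2
  have h5 : ∑ x : Fin (Fintype.card ι + Fintype.card ι), ∑ y : Fin (Fintype.card ι +
      Fintype.card ι), dJ J (dE ι x) (dE ι y) * (dM ι z) x * (dM ι z) y =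
      ∑ x, ∑ y, J x y * z.1 x * z.1 y + ∑ x, ∑ y, J x y * z.2 x * z.2 y := by
    simp only [dM_apply]
    have h6 : ∀ u : ι ⊕ ι, ∑ y : Fin (Fintype.card ι + Fintype.card ι),
        dJ J u (dE ι y) * Sum.elim z.1 z.2 u * Sum.elim z.1 z.2 (dE ι y) =
        ∑ a, dJ J u (Sum.inl a) * Sum.elim z.1 z.2 u * z.1 a +
          ∑ a, dJ J u (Sum.inr a) * Sum.elim z.1 z.2 u * z.2 a := fun u =>
      dsum fun v => dJ J u v * Sum.elim z.1 z.2 u * Sum.elim z.1 z.2 v
    rw [Finset.sum_congr rfl fun x _ => h6 (dE ι x)]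
    refine (dsum fun u => ∑ a, dJ J u (Sum.inl a) * Sum.elim z.1 z.2 u * z.1 a +
          ∑ a, dJ J u (Sum.inr a) * Sum.elim z.1 z.2 u * z.2 a).trans ?_
    simp [dJ]
  rw [h1, h4, h5]
  simp only [gH]
  ring

theorem key (hGLW : T_GLW) (hLAW : T_LAW) (F : (ι → ℝ) → ℝ) :
    ∫ φ, F (fun x => φ ((dE ι).symm (Sum.inl x))) ∂(dbl J g b hg hJ hs).law =
      ∫ φ, F φ ∂(glaw J g b) := by
  have h1 := (hLAW 1 dv (dbl J g b hg hJ hs)).2.2.2.1
  obtain ⟨-, hp, -, h2, -⟩ := hGLW ι J g b hg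
  rw [h1, h2]
  have e1 : ∀ F : (ι → ℝ) → ℝ, ∫ φ : Fin (dbl J g b hg hJ hs).N → ℝ,
      F (fun x => φ ((dE ι).symm (Sum.inl x))) * Real.exp (-(dbl J g b hg hJ hs).H φ) =
      (∫ φ, F φ * Real.exp (-gH J g b φ)) * ∫ φ, Real.exp (-gH J g b φ) := by
    intro F
    rw [← integral_prod_mul (μ := (volume : Measure (ι → ℝ))) (ν := (volume : Measure (ι → ℝ)))]
    rw [← (dM_mp (ι := ι)).integral_comp' (g := fun φ : Fin (dbl J g b hg hJ hs).N → ℝ =>
      F (fun x => φ ((dE ι).symm (Sum.inl x))) * Real.exp (-(dbl J g b hg hJ hs).H φ))]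
    refine integral_congr_ae (Filter.Eventually.of_forall fun z => ?_)
    simp only
    rw [dH]
    have : (fun x => dM ι z ((dE ι).symm (Sum.inl x))) = z.1 := by
      funext x
      rw [dM_apply, Equiv.apply_symm_apply]
      rfl
    rw [this, neg_add, Real.exp_add]
    ring
  rw [e1]
  have e2 := e1 (fun _ => 1)
  simp only [one_mul] at e2
  rw [e2, mul_div_mul_right _ _ hp.ne']

theorem key_prod (hGLW : T_GLW) (hLAW : T_LAW) {κ : Type} (T : Finset κ) (c : κ → ι → ℝ) :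
    ∫ φ : ι → ℝ, ∏ i ∈ T, ∑ x, c i x * φ x ∂(glaw J g b) =
      ∫ φ, ∏ i ∈ T, ∑ x, Sum.elim (c i) (fun _ => 0) (dE ι x) * φ x
        ∂(dbl J g b hg hJ hs).law := by
  rw [← key hg hJ hs hGLW hLAW]
  refine integral_congr_ae (Filter.Eventually.of_forall fun φ => ?_)
  simp only
  refine Finset.prod_congr rfl fun i _ => ?_
  have h1 : ∀ x : Fin (Fintype.card ι + Fintype.card ι), Sum.elim (c i) (fun _ => 0) (dE ι x) *
      φ x = (fun u : ι ⊕ ι => Sum.elim (c i) (fun _ => 0) u * φ ((dE ι).symm u)) (dE ι x) := by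
    intro x
    simp
  refine Eq.trans ?_ (Finset.sum_congr rfl fun x _ => h1 x).symm
  refine Eq.trans ?_ (dsum fun u : ι ⊕ ι => Sum.elim (c i) (fun _ => 0) u *
    φ ((dE ι).symm u)).symm
  simp

theorem pf_GGR (hGLW : T_GLW) (hLAW : Pool.Agent.H80.LD.T_LAW) (hGKS : Pool.Agent.H80.LD.T_GKS)
    (hST4 : Pool.Agent.H80.LD.T_ST4) (hCVG : Pool.Agent.H80.LD.T_CVG) : T_GGR := by
  refine ⟨?_, ?_, ?_, ?_⟩
  · intro ι _ J g b hg hJ hs n c hc
    rw [key_prod hg hJ hs hGLW hLAW]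
    refine ggr_pos hLAW hGKS _ _ fun i x => ?_
    generalize dE ι x = u
    cases u <;> simp [hc]
  · intro ι _ J g b hg hJ hs n c c' hc
    rw [key_prod hg hJ hs hGLW hLAW, key_prod hg hJ hs hGLW hLAW]
    refine ggr_maj hLAW hGKS _ _ _ fun i x => ?_
    generalize dE ι x = u
    cases u <;> simp [hc]
  · intro ι _ J g b hg hJ hs n hn c
    rw [key_prod hg hJ hs hGLW hLAW]
    exact ggr_odd hLAW hGKS _ _ (by rw [Fintype.card_fin]; exact hn)
  · intro ι _ J g b hg hJ hs n c hc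
    have hprob : IsProbabilityMeasure (glaw J g b) := (hGLW ι J g b hg).2.2.1
    set c' : Fin n → Fin (dbl J g b hg hJ hs).N → ℝ :=
      fun i x => Sum.elim (c i) (fun _ => 0) (dE ι x) with hc'
    have hc0 : ∀ i x, 0 ≤ c' i x := by
      intro i x
      simp only [hc']
      generalize dE ι x = u
      cases u <;> simp [hc]
    set a : Finset (Fin n) → ℝ := fun T => ∫ φ : ι → ℝ, ∏ i ∈ T, ∑ x, c i x * φ x ∂(glaw J g b)
      with ha
    have ha' : ∀ T, a T = ∫ φ, ∏ i ∈ T, ∑ x, c' i x * φ x ∂(dbl J g b hg hJ hs).law := fun T =>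
      key_prod hg hJ hs hGLW hLAW T c
    have haT : ∀ T : Finset (Fin n), a T =
        ∫ φ, ∏ i : T, ∑ x, c' i.1 x * φ x ∂(dbl J g b hg hJ hs).law := by
      intro T
      rw [ha']
      refine integral_congr_ae (Filter.Eventually.of_forall fun φ => ?_)
      exact (Finset.prod_coe_sort T fun i => ∑ x, c' i x * φ x).symm
    have h1 := hST4 1 dv (dbl J g b hg hJ hs) n c' hc0 a ha'
    exact hCVG n (fun i j => ∫ φ : ι → ℝ, (∑ x, c i x * φ x) * ∑ x, c j x * φ x ∂(glaw J g b)) a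
      (fun T => by
        rw [haT]
        exact ggr_pos hLAW hGKS _ _ fun i x => hc0 _ _)
      (by simp [ha])
      (fun i j hij => by
        simp only [ha]
        refine integral_congr_ae (Filter.Eventually.of_forall fun φ => ?_)
        simp only
        rw [Finset.prod_pair hij])
      (fun T hT => by
        rw [haT]
        exact ggr_odd hLAW hGKS _ _ (by rw [Fintype.card_coe]; exact hT)) h1 Finset.univ

end

end Pool.Agent.H97.UDP
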