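import Pool.Agent.H29.UDP.TPro
import Pool.Agent.H80.LD.CLO

/-!
# MP_47c37b: limits in law, the moments converge (LMV)
-/

set_option autoImplicit false

open MeasureTheory SchwartzMap Filter Topology
open scoped ENNReal ContDiff InnerProductSpace

namespace Pool.Agent.H97.UDP

open Pool.Agent.H29.UDP
open Pool.Agent.H43.DPC (V S SD moment trans rot IsMAO Diag)
open Pool.Agent.H80.LD (pair ml Dom CF tev_lin tev_meas mom_ml mom_ml2 pow_int one_mom')

theorem pf_LMV (hMAJ : Pool.Agent.H80.LD.T_MAJ) (hKTS : Pool.Agent.H80.LD.T_KTS)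
    (hWMC : Pool.Agent.H80.LD.T_WMC) (hPOL : Pool.Agent.H80.LD.T_POL)
    (hPRB : Pool.Agent.H80.LD.T_PRB) : T_LMV := by
  intro d ν μ hG hprob hL0
  have hL : CF ν μ := hL0
  have hν : ∀ k, IsProbabilityMeasure (ν k) := fun k => (hG k).1
  have hD : ∀ k, Dom (ν k) := fun k => (hG k).2
  have one := fun (f : S d) (n : ℕ) => one_mom' hMAJ hKTS hWMC hPRB hν hD hL f n
  have hmao : IsMAO μ := by
    intro f p hp
    obtain ⟨m, hm⟩ : ∃ m : ℕ, p ≤ m := by
      obtain ⟨m, hm⟩ := ENNReal.exists_nat_gt hp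
      exact ⟨m, hm.le⟩
    have hi := (one f (2 * (m + 1))).1
    have hne : ((2 * (m + 1) : ℕ) : ℝ≥0∞) ≠ 0 :=
      Nat.cast_ne_zero.2 (by omega)
    have hM : MemLp (fun T : SD d => T f) ((2 * (m + 1) : ℕ) : ℝ≥0∞) μ := by
      rw [← integrable_norm_rpow_iff (tev_meas f).aestronglyMeasurable hne
        (ENNReal.natCast_ne_top _)]
      refine hi.congr (Filter.Eventually.of_forall fun T => ?_)
      simp only [ENNReal.toReal_natCast, Real.rpow_natCast, Real.norm_eq_abs]
      rw [Even.pow_abs (even_two_mul _)]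
    refine hM.mono_exponent (hm.trans ?_)
    exact_mod_cast (by omega : m ≤ 2 * (m + 1))
  have hT : ∀ l : List (S d), Tendsto (fun k => ml (ν k) l) atTop (𝓝 (ml μ l)) := by
    intro l
    obtain ⟨n, f, rfl⟩ : ∃ (n : ℕ) (f : Fin n → S d), l = List.ofFn f :=
      ⟨l.length, l.get, (List.ofFn_get l).symm⟩
    set c : (Fin n → Bool) → Fin n → ℝ := fun ε i => if ε i then (1 : ℝ) else -1 with hc
    have hK : (0 : ℝ) < 2 ^ n * (n.factorial : ℝ) := by positivity
    have e2 : ∀ (m : Measure (SD d)), (∀ f : S d, Integrable (fun T : SD d => (T f) ^ n) m) →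
        ml m (List.ofFn f) = (2 ^ n * (n.factorial : ℝ))⁻¹ *
        ∑ ε : Fin n → Bool, (∏ i, c ε i) * ∫ T : SD d, (T (∑ i, c ε i • f i)) ^ n ∂m := by
      intro m hm
      unfold ml
      have h1 : ∀ T : SD d, ((List.ofFn f).map (fun f => T f)).prod =
          (2 ^ n * (n.factorial : ℝ))⁻¹ * ∑ ε : Fin n → Bool, (∏ i, c ε i) *
            (T (∑ i, c ε i • f i)) ^ n := by
        intro T
        rw [List.map_ofFn, List.prod_ofFn, eq_inv_mul_iff_mul_eq₀ hK.ne']
        rw [show (∏ i, ((fun f => T f) ∘ f) i) = ∏ i, T (f i) from rfl,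
          hPOL n (fun i => T (f i))]
        refine Finset.sum_congr rfl fun ε _ => ?_
        rw [tev_lin]
      simp only [h1]
      rw [integral_const_mul, integral_finsetSum]
      · simp only [integral_const_mul]
      · intro ε _
        exact (hm _).const_mul _
    rw [e2 μ fun f => (one f n).1]
    have e1 : ∀ k, ml (ν k) (List.ofFn f) = (2 ^ n * (n.factorial : ℝ))⁻¹ *
        ∑ ε : Fin n → Bool, (∏ i, c ε i) * ∫ T : SD d, (T (∑ i, c ε i • f i)) ^ n ∂(ν k) := by
      intro k
      have := hν k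
      exact e2 (ν k) fun f => pow_int (hD k).mao f n
    simp only [e1]
    refine Tendsto.const_mul _ (tendsto_finsetSum _ fun ε _ => ?_)
    exact ((one _ n).2).const_mul _
  refine ⟨⟨hmao, ?_, ?_, ?_, ?_⟩, hT⟩
  · intro n f hf
    rw [mom_ml]
    refine ge_of_tendsto' (hT (List.ofFn f)) (fun k => ?_)
    rw [← mom_ml]
    exact (hD k).pos n f hf
  · intro n f h hfh
    rw [mom_ml, mom_ml]
    refine le_of_tendsto_of_tendsto' (hT (List.ofFn f)).abs (hT (List.ofFn h)) (fun k => ?_)
    rw [← mom_ml, ← mom_ml]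
    exact (hD k).maj n f h hfh
  · intro n h hh
    rw [mom_ml]
    have h1 : Tendsto (fun k => pair (fun i j : Fin n => moment (ν k) ![h i, h j]) Finset.univ)
        atTop (𝓝 (pair (fun i j : Fin n => moment μ ![h i, h j]) Finset.univ)) := by
      have hc := hPRB.cont n (Finset.univ : Finset (Fin n))
      have h2 : Tendsto (fun k => (fun i j : Fin n => moment (ν k) ![h i, h j])) atTop
          (𝓝 (fun i j : Fin n => moment μ ![h i, h j])) := by
        rw [tendsto_pi_nhds]
        intro i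
        rw [tendsto_pi_nhds]
        intro j
        simp only [mom_ml2]
        exact hT [h i, h j]
      exact (hc.tendsto _).comp h2
    refine le_of_tendsto_of_tendsto' (hT (List.ofFn h)) h1 (fun k => ?_)
    rw [← mom_ml]
    exact (hD k).gau n h hh
  · intro n hn f
    rw [mom_ml]
    refine tendsto_nhds_unique (hT (List.ofFn f)) ?_
    have h1 : ∀ k, ml (ν k) (List.ofFn f) = 0 := by
      intro k
      rw [← mom_ml]
      exact (hD k).odd n hn f
    simp only [h1]
    exact tendsto_const_nhds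

end Pool.Agent.H97.UDP
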